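import Pool.Agent.helper97.GD.SpecB
import Pool.Agent.helper31.GD.GLV

/-!
# Project GD (MP_37e5fa_nt), block B, row BLV: the levels with small denominators
-/

set_option autoImplicit false

open Filter

namespace Pool.Agent.GD

variable {U : Ultrafilter ℕ} {N : ℕ → ℕ}

theorem BLV_up (H : GLV_H U N) (n : ℕ) : ∀ f, Lw U N n f → Lw U N (n + 1) f := by
  induction n with
  | zero =>
    intro f hf
    refine ⟨fun _ => 1, [(f, fun _ => 0)], H.co 1, Eventually.of_forall fun k => one_ne_zero, ?_, ?_⟩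
    · intro x hx
      rw [List.mem_singleton] at hx
      subst hx
      exact ⟨hf, H.co 0⟩
    · refine Eventually.of_forall fun k => ?_
      rw [sv_cons, sv_nil]
      simp
  | succ n ih =>
    rintro f ⟨d, l, hd, hd0, hl, hf⟩
    exact ⟨d, l, hd, hd0, fun x hx => ⟨(hl x hx).1, ih _ (hl x hx).2⟩, hf⟩

theorem BLV_sm (H : GLV_H U N) (n : ℕ) : ∀ f, Sm U N f → Lw U N n f := by
  induction n with
  | zero => exact fun f hf => hf
  | succ n ih => exact fun f hf => BLV_up H n f (ih f hf)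

theorem BLV_congr (n : ℕ) (f g : ℕ → ℤ) (hf : Lw U N n f)
    (h : ∀ᶠ k in (U : Filter ℕ), f k = g k) : Lw U N n g := by
  cases n with
  | zero =>
    intro j
    filter_upwards [hf j, h] with k h1 h2
    rw [← h2]
    exact h1
  | succ n =>
    obtain ⟨d, l, hd, hd0, hl, hf⟩ := hf
    refine ⟨d, l, hd, hd0, hl, ?_⟩
    filter_upwards [hf, h] with k h1 h2
    rw [← h2]
    exact h1

theorem BLV_dvd (H : GLV_H U N) (n : ℕ) (d f : ℕ → ℤ) (hd : Sm U N d)
    (hd0 : ∀ᶠ k in (U : Filter ℕ), d k ≠ 0)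
    (hf : Lw U N n (fun k => d k * f k)) : Lw U N n f := by
  cases n with
  | zero =>
    refine H.dm _ f 1 hf ?_
    filter_upwards [hd0] with k hk
    have h1 : (1 : ℤ) ≤ |d k| := Int.one_le_abs hk
    have h2 : |f k| ≤ |d k * f k| := by
      rw [abs_mul]
      exact le_mul_of_one_le_left (abs_nonneg _) h1
    push_cast
    linarith
  | succ n =>
    obtain ⟨d', l, hd', hd0', hl, hf⟩ := hf
    refine ⟨fun k => d' k * d k, l, (H.op _ _ hd' hd).2.2, ?_, hl, ?_⟩
    · filter_upwards [hd0, hd0'] with k h1 h2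
      exact mul_ne_zero h2 h1
    · filter_upwards [hf] with k h1
      rw [← h1]
      ring

theorem BLV_toNat (H : GLV_H U N) (n : ℕ) (e : ℕ → ℤ) (he : Lw U N n e) :
    Lw U N n (fun k => ((e k).toNat : ℤ)) := by
  rcases (U : Ultrafilter ℕ).em (fun k => 0 ≤ e k) with h | h
  · refine BLV_congr n e _ he ?_
    filter_upwards [h] with k hk
    exact (Int.toNat_of_nonneg hk).symm
  · refine BLV_congr n (fun _ => 0) _ (BLV_sm H n _ (H.co 0)) ?_
    filter_upwards [h] with k hk
    have : (e k).toNat = 0 := Int.toNat_of_nonpos (by omega)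
    rw [this]
    rfl

theorem BLV_scale (c : ℕ → ℤ) (l : List ((ℕ → ℤ) × (ℕ → ℤ))) (k : ℕ) :
    sv (l.map fun x => (fun k => c k * x.1 k, x.2)) k = c k * sv l k := by
  induction l with
  | nil => rw [List.map_nil, sv_nil, mul_zero]
  | cons x l ih =>
    rw [List.map_cons, sv_cons, sv_cons, ih]
    ring

theorem BLV_alg (H : GLV_H U N) (n : ℕ) : ∀ f g, Lw U N n f → Lw U N n g →
    Lw U N n (fun k => f k + g k) ∧ Lw U N n (fun k => f k - g k) ∧ Lw U N n (fun k => f k * g k) := by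
  induction n with
  | zero => exact fun f g hf hg => H.op f g hf hg
  | succ n ih =>
    rintro f g ⟨d, l, hd, hd0, hl, hf⟩ ⟨d', l', hd', hd0', hl', hg⟩
    have hsc : ∀ (c : ℕ → ℤ) (l : List ((ℕ → ℤ) × (ℕ → ℤ))), Sm U N c →
        (∀ x ∈ l, Sm U N x.1 ∧ Lw U N n x.2) →
        ∀ x ∈ l.map (fun x => ((fun k => c k * x.1 k : ℕ → ℤ), x.2)), Sm U N x.1 ∧ Lw U N n x.2 := by
      intro c l hc hl x hx
      rw [List.mem_map] at hx
      obtain ⟨y, hy, rfl⟩ := hx
      exact ⟨(H.op _ _ hc (hl y hy).1).2.2, (hl y hy).2⟩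
    have hdd : Sm U N (fun k => d k * d' k) := (H.op _ _ hd hd').2.2
    have hdd0 : ∀ᶠ k in (U : Filter ℕ), d k * d' k ≠ 0 := by
      filter_upwards [hd0, hd0'] with k h1 h2
      exact mul_ne_zero h1 h2
    have hdn : Sm U N (fun k => 0 - d k) := (H.op _ _ (H.co 0) hd).2.1
    refine ⟨⟨fun k => d k * d' k, l.map (fun x => (fun k => d' k * x.1 k, x.2)) ++
        l'.map (fun x => (fun k => d k * x.1 k, x.2)), hdd, hdd0, ?_, ?_⟩,
      ⟨fun k => d k * d' k, l.map (fun x => (fun k => d' k * x.1 k, x.2)) ++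
        l'.map (fun x => (fun k => (0 - d k) * x.1 k, x.2)), hdd, hdd0, ?_, ?_⟩,
      ⟨fun k => d k * d' k, l.flatMap fun x => GLV_mul x l', hdd, hdd0, ?_, ?_⟩⟩
    · intro x hx
      rcases List.mem_append.1 hx with h | h
      · exact hsc d' l hd' hl x h
      · exact hsc d l' hd hl' x h
    · filter_upwards [hf, hg] with k h1 h2
      rw [sv_append, BLV_scale d', BLV_scale d, ← h1, ← h2]
      ring
    · intro x hx
      rcases List.mem_append.1 hx with h | h
      · exact hsc d' l hd' hl x h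
      · exact hsc (fun k => 0 - d k) l' hdn hl' x h
    · filter_upwards [hf, hg] with k h1 h2
      rw [sv_append, BLV_scale d', BLV_scale (fun k => 0 - d k), ← h1, ← h2]
      ring
    · intro z hz
      rw [List.mem_flatMap] at hz
      obtain ⟨x, hx, hz⟩ := hz
      unfold GLV_mul at hz
      rw [List.mem_map] at hz
      obtain ⟨y, hy, rfl⟩ := hz
      exact ⟨(H.op _ _ (hl x hx).1 (hl' y hy).1).2.2,
        (ih _ _ (BLV_toNat H n _ (hl x hx).2) (BLV_toNat H n _ (hl' y hy).2)).1⟩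
    · filter_upwards [hf, hg] with k h1 h2
      rw [GLV_flat_sv, ← h1, ← h2]
      ring

theorem BLV_div (H : GLV_H U N) (n : ℕ) (c f : ℕ → ℤ) (hc : Sm U N c) (hf : Lw U N n f) :
    Lw U N n (fun k => f k / c k) := by
  rcases (U : Ultrafilter ℕ).em (fun k => c k = 0) with h | h
  · refine BLV_congr n (fun _ => 0) _ (BLV_sm H n _ (H.co 0)) ?_
    filter_upwards [h] with k hk
    rw [hk, Int.ediv_zero]
  · have hr : Sm U N (fun k => f k % c k) := by
      refine H.dm c _ 1 hc ?_
      filter_upwards [h] with k hk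
      have h1 : 0 ≤ f k % c k := Int.emod_nonneg _ hk
      have h2 : f k % c k < |c k| := Int.emod_lt_abs _ hk
      rw [abs_of_nonneg h1]
      push_cast
      linarith
    apply BLV_dvd H n c _ hc h
    refine BLV_congr n (fun k => f k - f k % c k) _ ((BLV_alg H n f (fun k => f k % c k) hf
      (BLV_sm H n _ hr)).2.1) ?_
    refine Eventually.of_forall fun k => ?_
    have := Int.mul_ediv_add_emod (f k) (c k)
    linarith

/-- **BLV**. -/
theorem BLV (hGSM : GSM_stmt) : BLV_stmt := by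
  intro U N hN n
  obtain ⟨h1, h2, h3, -, -, -⟩ := hGSM U N hN
  have H : GLV_H U N := ⟨h1, h2, h3⟩
  refine ⟨fun f g hf h => BLV_congr n f g hf h, BLV_sm H n, BLV_up H n, BLV_alg H n,
    fun d f hd hd0 hf => BLV_dvd H n d f hd hd0 hf, fun c f hc hf => BLV_div H n c f hc hf, fun f hf => ?_⟩
  refine ⟨fun _ => 1, [(fun _ => 1, f)], H.co 1, Eventually.of_forall fun k => one_ne_zero, ?_, ?_⟩
  · intro x hx
    rw [List.mem_singleton] at hx
    subst hx
    exact ⟨H.co 1, hf⟩
  · refine Eventually.of_forall fun k => ?_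
    rw [sv_cons, sv_nil]
    simp

end Pool.Agent.GD
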